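import Mathlib
import Pool.Agent.H983R4.LH.P6

/-!
# Large values of the zeta function on the critical line are never isolated

Let `0 < κ < μ`.  If `|ζ(1/2 + iT)| ≥ T^μ` and `T` is large then `|ζ(1/2 + ix)| > T^κ` holds on a proportion
at least `δ(κ, μ)` of the interval `[T - h, T + h]`, for every `0 < h ≤ 1`, whatever the scale `h`.
Consequently a bound `|ζ(1/2 + it)| = O(t^(κ + ε))` holds everywhere as soon as it holds outside sets that
fill a proportion tending to zero of `[T - w, T + w]`, for one choice of `w = w(T)` in `(0, 1]`, and as soon as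
it holds outside a set of finite measure; and the Lindelöf hypothesis is equivalent to
`∫_T^(T+1) log⁺ |ζ(1/2 + it)| dt = o(log T)`.

Proof.  Jensen's formula on a circle with centre `1/2 + iT` and radius `r = r(κ, μ) h` and the functional
equation bound `log |ζ(1/2 + iT)|` by the mean of `log⁺ |ζ|` over the right half of the circle and
`O(r log T)`.  The Poisson-Jensen inequality in the half plane `Re s > 1/2` bounds `log⁺ |ζ|` at the points of
this half circle by means of `log⁺ |ζ|` over the critical line, and these are less than `μ log T` if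
`|ζ(1/2 + ix)| ≤ T^κ` for all but a small proportion of `[T - h, T + h]`.
-/

set_option autoImplicit false

open Filter Topology MeasureTheory Real

namespace Pool.Agent.Results.MP_4e5e8a_nt.PersistentLargeValues

/-- The modulus of the zeta function on the critical line. -/
noncomputable def Z (t : ℝ) : ℝ := ‖riemannZeta (1 / 2 + t * Complex.I)‖

/-- `|ζ(1/2 + it)| = O((1 + |t|)^(κ + ε))` for every `ε > 0`; for `κ = 0` this is the Lindelöf
hypothesis. -/
def Exponent (κ : ℝ) : Prop := ∀ ε : ℝ, 0 < ε → ∃ C : ℝ, ∀ t : ℝ, Z t ≤ C * (1 + |t|) ^ (κ + ε)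

theorem result :
    (∀ κ μ : ℝ, 0 < κ → κ < μ → ∃ δ T₀ : ℝ, 0 < δ ∧ 0 < T₀ ∧ ∀ T : ℝ, T₀ ≤ T → T ^ μ ≤ Z T →
      ∀ h : ℝ, 0 < h → h ≤ 1 → ENNReal.ofReal (δ * h) < volume {x : ℝ | |x - T| ≤ h ∧ T ^ κ < Z x}) ∧
    (∀ κ : ℝ, 0 ≤ κ →
      (Exponent κ ↔ ∀ ε : ℝ, 0 < ε → volume {t : ℝ | (1 + |t|) ^ (κ + ε) < Z t} < ⊤) ∧
      (Exponent κ ↔ ∃ w : ℝ → ℝ, (∀ T, 0 < w T ∧ w T ≤ 1) ∧ ∀ ε : ℝ, 0 < ε →
        Tendsto (fun T : ℝ => volume {x : ℝ | |x - T| ≤ w T ∧ T ^ (κ + ε) < Z x} /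
          ENNReal.ofReal (w T)) atTop (𝓝 0))) ∧
    (Exponent 0 ↔ Tendsto (fun T : ℝ => (∫ t in T..(T + 1), log⁺ (Z t)) / Real.log T) atTop (𝓝 0)) := by
  refine ⟨?_, ?_, ?_⟩
  · intro κ μ h1 h2
    obtain ⟨δ, hδ, T₀, hT₀, h⟩ := Pool.Agent.H983R4.LH.main_local h1 h2
    exact ⟨δ, T₀, hδ, by linarith, fun T hT hz w hw1 hw2 => h T hT w hw1 hw2 hz⟩
  · intro κ hκ
    refine ⟨⟨fun h ε hε => Pool.Agent.H983R4.LH.finite_of_adm hκ h hε,
      fun h => Pool.Agent.H983R4.LH.adm_of_finite hκ h⟩, ⟨fun h => ?_, ?_⟩⟩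
    · refine ⟨fun _ => 1, fun _ => ⟨one_pos, le_rfl⟩, fun ε hε => ?_⟩
      have h2 : ∀ᶠ T : ℝ in atTop, volume {x : ℝ | |x - T| ≤ 1 ∧ T ^ (κ + ε) < Z x} /
          ENNReal.ofReal 1 = 0 := by
        filter_upwards [Pool.Agent.H983R4.LH.Ex_empty hκ h hε] with T hT
        have h3 : {x : ℝ | |x - T| ≤ 1 ∧ T ^ (κ + ε) < Z x} = ∅ := hT 1 le_rfl
        rw [h3, measure_empty, ENNReal.zero_div]
      exact tendsto_const_nhds.congr' (h2.mono fun T hT => hT.symm)
    · rintro ⟨w, hw, h⟩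
      exact Pool.Agent.H983R4.LH.adm_of_windows hκ hw h
  · exact ⟨fun h => Pool.Agent.H983R4.LH.mean_of_LHyp h, fun h => Pool.Agent.H983R4.LH.LHyp_of_mean h⟩

end Pool.Agent.Results.MP_4e5e8a_nt.PersistentLargeValues
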