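import Mathlib
import Pool.Agent.H983R4.GL.Z3

/-!
# The Lindelöf hypothesis and positive proportions of short windows

We prove that the Lindelöf hypothesis holds if and only if, for every `ε > 0`, there is `η > 0` such that around
every large `T` there is ONE window `[T - h, T + h]`, of radius `h = h(T) ≤ η ε / (10 π)` that may be as small
as we please, on a proportion `η` of which `|ζ(1/2 + ix)| ≤ T^ε`.  More precisely, let `θ` be any exponent with
`|ζ(1/2 + it)| = O(t^(θ + ε))` for all `ε > 0`.  If `|ζ(1/2 + ix)| ≤ T^(θ - δ)` on a proportion `η` of a window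
`[T - h, T + h]` with `h ≤ η δ / (10 π)`, then `|ζ(1/2 + iT)| ≤ T^(θ - δ')` with `δ' = η δ / (20 π)`, which does
not depend on `h`.  Hence, if `θ` is the least such exponent, then for all `δ` in `(0, θ]` and `η` in `(0, 1]`
there are arbitrarily large `T` such that `|ζ(1/2 + ix)| > T^(θ - δ)` for all but a proportion `η` of the points
of EVERY window `[T - h, T + h]` with `h ≤ η δ / (10 π)`, `h ≤ 1/2`: were the Lindelöf hypothesis false,
near-maximal values would fill almost all of every short interval around some `T`.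

Proof.  The Poisson-Jensen inequality in the half plane `Re s > 1/2` gives a bound `(θ - c η δ a / h) log T` for
`log |ζ|` at distance `a ≤ h` from the critical line, near `1/2 + iT`.  Jensen's inequality on the circle with
centre `1/2 + iT` and radius `h` and the functional equation carry this over to the point `1/2 + iT`; the
reflection costs at most `a log T`, which is less than the gain as `h ≤ η δ / (10 π)`.
-/

set_option autoImplicit false

open Filter Topology MeasureTheory Real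

namespace Pool.Agent.Results.MP_4e5e8a_nt.PositiveProportion

/-- The modulus of the zeta function on the critical line. -/
noncomputable def Z (t : ℝ) : ℝ := ‖riemannZeta (1 / 2 + t * Complex.I)‖

/-- `|ζ(1/2 + it)| = O((1 + |t|)^(κ + ε))` for every `ε > 0`; for `κ = 0` this is the Lindelöf
hypothesis. -/
def Exponent (κ : ℝ) : Prop := ∀ ε : ℝ, 0 < ε → ∃ C : ℝ, ∀ t : ℝ, Z t ≤ C * (1 + |t|) ^ (κ + ε)

/-- The points `x` of the window `[T - h, T + h]` at which `|ζ(1/2 + ix)| ≤ T^κ`. -/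
def Small (κ T h : ℝ) : Set ℝ := {x : ℝ | |x - T| ≤ h ∧ Z x ≤ T ^ κ}

theorem result :
    (Exponent 0 ↔ ∀ ε : ℝ, 0 < ε → ∃ η : ℝ, 0 < η ∧ η ≤ 1 ∧ ∃ T₀ : ℝ, ∀ T : ℝ, T₀ ≤ T →
      ∃ h : ℝ, 0 < h ∧ h ≤ 1 / 2 ∧ h ≤ η * ε / (10 * π) ∧
        ENNReal.ofReal (η * (2 * h)) ≤ volume (Small ε T h)) ∧
    (∀ θ δ η : ℝ, Exponent θ → 0 < δ → δ ≤ θ → 0 < η → ∃ T₀ : ℝ, ∀ T : ℝ, T₀ ≤ T →
      ∀ h : ℝ, 0 < h → h ≤ 1 / 2 → h ≤ η * δ / (10 * π) →
        ENNReal.ofReal (η * (2 * h)) ≤ volume (Small (θ - δ) T h) →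
          Z T ≤ T ^ (θ - η * δ / (20 * π))) ∧
    (∃ θ : ℝ, 0 ≤ θ ∧ Exponent θ ∧ (∀ θ' : ℝ, 0 ≤ θ' → Exponent θ' → θ ≤ θ') ∧
      ∀ δ η T₀ : ℝ, 0 < δ → δ ≤ θ → 0 < η → η ≤ 1 → ∃ T : ℝ, T₀ ≤ T ∧
        ∀ h : ℝ, 0 < h → h ≤ 1 / 2 → h ≤ η * δ / (10 * π) →
          volume (Small (θ - δ) T h) < ENNReal.ofReal (η * (2 * h))) := by
  refine ⟨Pool.Agent.H983R4.GL.Z.lindZ_iff, ?_, ?_⟩
  · intro θ δ η h1 h2 h3 h4
    obtain ⟨T₀, _, h⟩ := Pool.Agent.H983R4.GL.Z.improve_zeta h1 h2 h3 h4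
    exact ⟨T₀, h⟩
  · obtain ⟨θ, hθ0, hθ, hmin⟩ := Pool.Agent.H983R4.GL.Z.leastZ
    refine ⟨θ, hθ0, hθ, hmin, fun δ η T₀ hδ hδθ hη hη1 => ?_⟩
    have h2 := Pool.Agent.H983R4.GL.Z.spreadZ hθ hmin hδ hδθ hη hη1
    unfold Pool.Agent.H983R4.GL.Z.SomeZ at h2
    push Not at h2
    obtain ⟨T, hT, h3⟩ := h2 T₀
    exact ⟨T, hT, fun h a b c => h3 h a b c⟩

end Pool.Agent.Results.MP_4e5e8a_nt.PositiveProportion
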